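import Pool.Agent.Q215.TD.Stm

/-!
# Project TD: a smooth embedding of a large ball (TD-CH)
-/

set_option autoImplicit false

namespace Pool.Agent.Q234.TD

open Pool.Agent.Q215.TD
open Filter Topology Manifold
open scoped ContDiff

theorem finrank_W (n : ℕ) :
    Module.finrank ℝ (W n) = Module.finrank ℝ (EuclideanSpace ℝ (Fin (n + 2))) := by
  rw [Module.finrank_prod, Complex.finrank_real_complex, finrank_euclideanSpace_fin,
    finrank_euclideanSpace_fin]
  omega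

theorem t_CH : S_CH := by
  intro n M _ _ _ _
  obtain ⟨p₀⟩ := (inferInstance : Nonempty M)
  set φ := chartAt (EuclideanSpace ℝ (Fin (n + 2))) p₀ with hφ
  have hp : φ p₀ ∈ φ.target := φ.map_source (mem_chart_source _ p₀)
  obtain ⟨ε, hε, hball⟩ := Metric.nhds_basis_closedBall.mem_iff.1 (φ.open_target.mem_nhds hp)
  let L : W n ≃L[ℝ] EuclideanSpace ℝ (Fin (n + 2)) := ContinuousLinearEquiv.ofFinrankEq
    (finrank_W n)
  set C : ℝ := ‖(L : W n →L[ℝ] EuclideanSpace ℝ (Fin (n + 2)))‖ + 1 with hC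
  have hC0 : 0 < C := by positivity
  have hLC : ∀ w, ‖L w‖ ≤ C * ‖w‖ := by
    intro w
    have h := (L : W n →L[ℝ] EuclideanSpace ℝ (Fin (n + 2))).le_opNorm w
    have h2 : 0 ≤ ‖w‖ := norm_nonneg w
    calc ‖L w‖ ≤ ‖(L : W n →L[ℝ] EuclideanSpace ℝ (Fin (n + 2)))‖ * ‖w‖ := h
      _ ≤ C * ‖w‖ := mul_le_mul_of_nonneg_right (by rw [hC]; linarith) h2
  set s : ℝ := ε / (3 * C) with hs
  have hs0 : 0 < s := by positivity
  let A : W n ≃ₜ EuclideanSpace ℝ (Fin (n + 2)) :=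
    (L.toHomeomorph.trans (Homeomorph.smulOfNeZero s hs0.ne')).trans (Homeomorph.addLeft (φ p₀))
  have hA : ∀ w, A w = φ p₀ + s • L w := fun w => rfl
  have hA' : ∀ v, A.symm v = L.symm (s⁻¹ • (-φ p₀ + v)) := fun v => rfl
  have hAs : ContDiff ℝ ∞ A := by
    have h : (A : W n → EuclideanSpace ℝ (Fin (n + 2))) = fun w => φ p₀ + s • L w := funext hA
    rw [h]
    exact contDiff_const.add (L.contDiff.const_smul s)
  have hAs' : ContDiff ℝ ∞ A.symm := by
    have h : (A.symm : EuclideanSpace ℝ (Fin (n + 2)) → W n) =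
        fun v => L.symm (s⁻¹ • (-φ p₀ + v)) := funext hA'
    rw [h]
    exact L.symm.contDiff.comp ((contDiff_const.add contDiff_id).const_smul s⁻¹)
  let J : OpenPartialHomeomorph (W n) M := A.transOpenPartialHomeomorph φ.symm
  refine ⟨J, ⟨?_, ?_, ?_⟩⟩
  · intro w hw
    rw [mem_closedBall_zero_iff] at hw
    change A w ∈ φ.target
    apply hball
    rw [Metric.mem_closedBall, hA, dist_eq_norm, add_sub_cancel_left, norm_smul,
      Real.norm_of_nonneg hs0.le]
    calc s * ‖L w‖ ≤ s * (C * 3) :=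
          mul_le_mul_of_nonneg_left ((hLC w).trans (mul_le_mul_of_nonneg_left hw hC0.le)) hs0.le
      _ = ε := by
          rw [hs]
          field_simp
  · have h1 : ContMDiffOn 𝓘(ℝ, EuclideanSpace ℝ (Fin (n + 2))) (𝓡 (n + 2)) ∞ φ.symm φ.target :=
      contMDiffOn_chart_symm
    have h2 : ContMDiff 𝓘(ℝ, W n) 𝓘(ℝ, EuclideanSpace ℝ (Fin (n + 2))) ∞ A := hAs.contMDiff
    exact h1.comp (s := J.source) h2.contMDiffOn (fun w hw => hw)
  · have h1 : ContMDiffOn (𝓡 (n + 2)) 𝓘(ℝ, EuclideanSpace ℝ (Fin (n + 2))) ∞ φ φ.source :=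
      contMDiffOn_chart
    have h2 : ContMDiff 𝓘(ℝ, EuclideanSpace ℝ (Fin (n + 2))) 𝓘(ℝ, W n) ∞ A.symm :=
      hAs'.contMDiff
    have h3 : J.target ⊆ φ.source := fun p hp => hp
    exact h2.comp_contMDiffOn (h1.mono h3)

end Pool.Agent.Q234.TD
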