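import Pool.Agent.Q215.TD.Stm

/-!
# Project TD: transplantation of maps of the local model to a manifold (TD-TRC, TD-TRS)
-/

set_option autoImplicit false

namespace Pool.Agent.Q234.TD

open Pool.Agent.Q215.TD
open Filter Topology Manifold
open scoped ContDiff

section

variable {n : ℕ} {M : Type} [TopologicalSpace M]

theorem maps_source (J : OpenPartialHomeomorph (W n) M) (hJ : Metric.closedBall 0 3 ⊆ J.source)
    (F : W n → W n) (hF : Supp F) (w : W n) (hw : w ∈ J.source) : F w ∈ J.source := by
  rcases lt_or_ge ‖w‖ 3 with h | h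
  · apply hJ
    rw [mem_closedBall_zero_iff]
    exact (hF.ins w h).le
  · rw [hF.out w h]
    exact hw

theorem tr_J (J : OpenPartialHomeomorph (W n) M) (F : W n → W n) (w : W n)
    (hw : w ∈ J.source) : tr J F (J w) = J (F w) := by
  unfold tr
  rw [if_pos (J.map_source hw), J.left_inv hw]

theorem tr_out (J : OpenPartialHomeomorph (W n) M) (F : W n → W n) (p : M)
    (hp : p ∉ J.target) : tr J F p = p := by
  unfold tr
  rw [if_neg hp]

theorem tr_eventually_in (J : OpenPartialHomeomorph (W n) M) (F : W n → W n) (p : M)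
    (hp : p ∈ J.target) : tr J F =ᶠ[𝓝 p] fun q => J (F (J.symm q)) := by
  filter_upwards [J.open_target.mem_nhds hp] with q hq
  unfold tr
  rw [if_pos hq]

theorem tr_eventually_out [T2Space M] (J : OpenPartialHomeomorph (W n) M)
    (hJ : Metric.closedBall 0 3 ⊆ J.source) (F : W n → W n) (hF : Supp F) (p : M)
    (hp : p ∉ J.target) : tr J F =ᶠ[𝓝 p] fun q => q := by
  have hK : IsClosed (J '' Metric.closedBall 0 3) :=
    ((isCompact_closedBall (0 : W n) 3).image_of_continuousOn (J.continuousOn.mono hJ)).isClosed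
  have hpK : p ∈ (J '' Metric.closedBall 0 3)ᶜ := by
    rintro ⟨w, hw, rfl⟩
    exact hp (J.map_source (hJ hw))
  filter_upwards [hK.isOpen_compl.mem_nhds hpK] with q hq
  by_cases hqt : q ∈ J.target
  · have h1 : 3 < ‖J.symm q‖ := by
      by_contra hcon
      apply hq
      exact ⟨J.symm q, mem_closedBall_zero_iff.2 (not_lt.1 hcon), J.right_inv hqt⟩
    unfold tr
    rw [if_pos hqt, hF.out _ h1.le, J.right_inv hqt]
  · exact tr_out J F q hqt

end

theorem t_TRC : S_TRC := by
  intro n M _ _ J hJ
  refine ⟨fun F hF => ⟨?_, maps_source J hJ F hF, tr_J J F, tr_out J F⟩, ?_⟩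
  · rw [continuous_iff_continuousAt]
    intro p
    by_cases hp : p ∈ J.target
    · have h1 : ContinuousAt (fun q => J (F (J.symm q))) p := by
        have h2 : ContinuousAt J.symm p := J.symm.continuousAt hp
        have h3 : ContinuousAt F (J.symm p) := hF.cont.continuousAt
        have h4 : ContinuousAt J (F (J.symm p)) :=
          J.continuousAt (maps_source J hJ F hF _ (J.map_target hp))
        exact ContinuousAt.comp (g := J) (f := fun q => F (J.symm q)) h4
          (ContinuousAt.comp (g := F) (f := J.symm) h3 h2)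
      exact h1.congr (tr_eventually_in J F p hp).symm
    · exact continuousAt_id.congr (tr_eventually_out J hJ F hF p hp).symm
  · intro F G hF hG p
    by_cases hp : p ∈ J.target
    · have h1 : tr J G p = J (G (J.symm p)) := by
        unfold tr
        rw [if_pos hp]
      have h2 : tr J (F ∘ G) p = J (F (G (J.symm p))) := by
        unfold tr
        rw [if_pos hp]
        rfl
      rw [h1, h2, tr_J J F _ (maps_source J hJ G hG _ (J.map_target hp))]
    · rw [tr_out J G p hp, tr_out J F p hp, tr_out J (F ∘ G) p hp]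

theorem t_TRS : S_TRS := by
  intro _ n M _ _ _ _ J hJ F hF hFs p
  by_cases hp : p ∈ J.target
  · have h1 : ContMDiffAt (𝓡 (n + 2)) (𝓡 (n + 2)) ∞ (fun q => J (F (J.symm q))) p := by
      have h2 : ContMDiffAt (𝓡 (n + 2)) 𝓘(ℝ, W n) ∞ J.symm p :=
        hJ.sm'.contMDiffAt (J.open_target.mem_nhds hp)
      have h3 : ContMDiffAt 𝓘(ℝ, W n) 𝓘(ℝ, W n) ∞ F (J.symm p) := hFs.contMDiff.contMDiffAt
      have h4 : ContMDiffAt 𝓘(ℝ, W n) (𝓡 (n + 2)) ∞ J (F (J.symm p)) :=
        hJ.sm.contMDiffAt (J.open_source.mem_nhds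
          (maps_source J hJ.ball F hF _ (J.map_target hp)))
      exact ContMDiffAt.comp (g := J) (f := fun q => F (J.symm q)) p h4
        (ContMDiffAt.comp (g := F) (f := J.symm) p h3 h2)
    exact h1.congr_of_eventuallyEq (tr_eventually_in J F p hp)
  · exact contMDiffAt_id.congr_of_eventuallyEq (tr_eventually_out J hJ.ball F hF p hp)

end Pool.Agent.Q234.TD
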